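import Mathlib

/-!
# PROJECT HC, part E: Galois action on the values of a rational alternating form

`K` a number field, `ζ j τ : V → ℂ` real linear with `ζ j τ l = τ (y l j)` for `l ∈ L`.
If `c` is multilinear and takes rational values on families of forms which are rational on `L`,
then for `g i : K →+* K` the number `c (ζ (j i) (p ∘ g i))` is `p x`, `x ∈ K` independent of the
embedding `p : K →+* ℂ`.
-/

namespace HC
namespace E

open Finset Module

noncomputable section

variable {K : Type*} [Field K] [NumberField K]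

/-- The trace is the sum over the embeddings. -/
theorem trace_emb (x : K) : ((Algebra.trace ℚ K x : ℚ) : ℂ) = ∑ τ : K →+* ℂ, τ x := by
  have h := trace_eq_sum_embeddings (K := ℚ) (L := K) ℂ (x := x)
  have e : ((Algebra.trace ℚ K x : ℚ) : ℂ) = algebraMap ℚ ℂ (Algebra.trace ℚ K x) := rfl
  rw [e, h]
  exact (Fintype.sum_equiv (RingHom.equivRatAlgHom K ℂ) _ _ (fun τ => rfl)).symm

/-- The dual basis for the trace form and the embeddings. -/
theorem dual_sum {ι : Type*} [Fintype ι] [DecidableEq ι] [DecidableEq (K →+* ℂ)]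
    (b : Basis ι ℚ K) (τ' τ : K →+* ℂ) :
    ∑ i, τ' (b i) * τ (b.traceDual i) = if τ = τ' then 1 else 0 := by
  have key : ∀ x : K, ∑ τ : K →+* ℂ, (∑ i, τ' (b i) * τ (b.traceDual i)) * τ x = τ' x := by
    intro x
    have h1 : ∀ i, ((b.repr x i : ℚ) : ℂ) = ∑ τ : K →+* ℂ, τ (b.traceDual i) * τ x := by
      intro i
      have h2 : b.repr x i = Algebra.trace ℚ K (x * b.traceDual i) := by
        have h3 := b.traceDual.traceDual_repr_apply x i
        rw [Basis.traceDual_traceDual] at h3
        rw [h3, Algebra.traceForm_apply]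
      rw [h2, trace_emb]
      refine Finset.sum_congr rfl (fun τ _ => ?_)
      rw [map_mul, mul_comm]
    calc ∑ τ : K →+* ℂ, (∑ i, τ' (b i) * τ (b.traceDual i)) * τ x
        = ∑ i, τ' (b i) * ∑ τ : K →+* ℂ, τ (b.traceDual i) * τ x := by
          simp only [Finset.sum_mul, Finset.mul_sum]
          rw [Finset.sum_comm]
          refine Finset.sum_congr rfl (fun i _ => Finset.sum_congr rfl (fun τ _ => ?_))
          ring
      _ = ∑ i, τ' (b i) * ((b.repr x i : ℚ) : ℂ) := by simp only [h1]
      _ = τ' (∑ i, b.repr x i • b i) := by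
          rw [map_sum]
          refine Finset.sum_congr rfl (fun i _ => ?_)
          rw [Rat.smul_def, map_mul, map_ratCast, mul_comm]
      _ = τ' x := by rw [b.sum_repr]
  have hli := linearIndependent_monoidHom K ℂ
  have hinj : Function.Injective (fun t : K →+* ℂ => (t : K →* ℂ)) := by
    intro s t hst
    ext x
    exact DFunLike.congr_fun hst x
  have hli' := hli.comp _ hinj
  have hz := Fintype.linearIndependent_iff.mp hli'
    (fun τ => (∑ i, τ' (b i) * τ (b.traceDual i)) - if τ = τ' then 1 else 0) (by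
      funext x
      simp only [Finset.sum_apply, Pi.smul_apply, smul_eq_mul, Function.comp, Pi.zero_apply,
        sub_mul, Finset.sum_sub_distrib]
      rw [sub_eq_zero]
      refine (key x).trans ?_
      simp)
  have := hz τ
  simpa [sub_eq_zero] using this

/-- THE GALOIS LEMMA.  `c` multilinear with rational values on families of real linear forms which
are rational on the set `L`; `ζ j τ l = τ (y l j)` on `L`. -/
theorem exists_val {V : Type*} [AddCommGroup V] [Module ℝ V] (L : Set V) {J : Type*}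
    (y : V → J → K) (ζ : J → (K →+* ℂ) → (V →ₗ[ℝ] ℂ))
    (hζ : ∀ l ∈ L, ∀ j τ, ζ j τ l = τ (y l j)) {m : ℕ}
    (c : MultilinearMap ℂ (fun _ : Fin m => (V →ₗ[ℝ] ℂ)) ℂ)
    (hc : ∀ a : Fin m → (V →ₗ[ℝ] ℂ), (∀ i, ∀ l ∈ L, ∃ q : ℚ, a i l = q) → ∃ q : ℚ, c a = q)
    (j : Fin m → J) (g : Fin m → (K →+* K)) :
    ∃ x : K, ∀ p : K →+* ℂ, c (fun i => ζ (j i) (p.comp (g i))) = p x := by
  classical
  let b := Module.finBasis ℚ K
  -- the rational forms
  let ρ : J → K → (V →ₗ[ℝ] ℂ) := fun j x => ∑ τ : K →+* ℂ, τ x • ζ j τ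
  have hρ : ∀ j x, ∀ l ∈ L, ∃ q : ℚ, ρ j x l = q := by
    intro j x l hl
    refine ⟨Algebra.trace ℚ K (x * y l j), ?_⟩
    rw [trace_emb]
    simp only [ρ, LinearMap.sum_apply, LinearMap.smul_apply, smul_eq_mul, map_mul]
    exact Finset.sum_congr rfl (fun τ _ => by rw [hζ l hl])
  have hexp : ∀ j (τ' : K →+* ℂ), ζ j τ' = ∑ i, τ' (b i) • ρ j (b.traceDual i) := by
    intro j τ'
    have : ∑ i, τ' (b i) • ρ j (b.traceDual i) =
        ∑ τ : K →+* ℂ, (∑ i, τ' (b i) * τ (b.traceDual i)) • ζ j τ := by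
      simp only [ρ, Finset.smul_sum, Finset.sum_smul, smul_smul]
      rw [Finset.sum_comm]
    rw [this]
    simp only [dual_sum b τ', ite_smul, one_smul, zero_smul]
    simp
  choose q hq using fun r : Fin m → Fin (Module.finrank ℚ K) =>
    hc (fun i => ρ (j i) (b.traceDual (r i))) (fun i => hρ (j i) _)
  refine ⟨∑ r : Fin m → Fin (Module.finrank ℚ K), (∏ i, g i (b (r i))) * (q r : K), fun p => ?_⟩
  have h1 : (fun i => ζ (j i) (p.comp (g i))) =
      fun i => ∑ s, (p (g i (b s))) • ρ (j i) (b.traceDual s) := by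
    funext i
    rw [hexp]
    rfl
  rw [h1, MultilinearMap.map_sum, map_sum]
  refine Finset.sum_congr rfl (fun r _ => ?_)
  rw [MultilinearMap.map_smul_univ, hq r, map_mul, map_prod, map_ratCast, smul_eq_mul]

end

end E
end HC
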