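import Mathlib

/-!
# PROJECT HC, part E: rotation invariance gives equality of the numbers of holomorphic and
antiholomorphic factors
-/

namespace HC
namespace E

open Finset ComplexConjugate

noncomputable section

/-- `u ^ p * conj u ^ q = 1` for all `|u| = 1` forces `p = q`. -/
theorem pow_eq {p q : ℕ} (h : ∀ u : ℂ, ‖u‖ = 1 → u ^ p * conj u ^ q = 1) : p = q := by
  wlog hpq : q ≤ p generalizing p q with H
  · refine (H (p := q) (q := p) (fun u hu => ?_) (le_of_not_ge hpq)).symm
    have := h (conj u) (by rwa [Complex.norm_conj])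
    rw [Complex.conj_conj] at this
    rw [mul_comm]
    exact this
  by_contra hne
  have hlt : q < p := lt_of_le_of_ne hpq (Ne.symm hne)
  obtain ⟨r, rfl⟩ := Nat.exists_eq_add_of_lt hlt
  -- `u ^ (r + 1) = 1` for all unit `u`
  have h1 : ∀ u : ℂ, ‖u‖ = 1 → u ^ (r + 1) = 1 := by
    intro u hu
    have h2 := h u hu
    have h3 : u * conj u = 1 := by
      rw [Complex.mul_conj, Complex.normSq_eq_norm_sq, hu]
      norm_num
    have h4 : u ^ (q + r + 1) * conj u ^ q = u ^ (r + 1) * (u * conj u) ^ q := by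
      rw [mul_pow]; ring
    rw [h4, h3, one_pow, mul_one] at h2
    exact h2
  have h5 := h1 (Complex.exp ((Real.pi / (r + 1) : ℝ) * Complex.I))
    (Complex.norm_exp_ofReal_mul_I _)
  rw [← Complex.exp_nat_mul] at h5
  have h6 : ((r + 1 : ℕ) : ℂ) * (((Real.pi / (r + 1) : ℝ) : ℂ) * Complex.I) =
      Real.pi * Complex.I := by
    push_cast
    have : (r : ℂ) + 1 ≠ 0 := by exact_mod_cast Nat.succ_ne_zero r
    field_simp
  rw [h6, Complex.exp_pi_mul_I] at h5
  norm_num at h5

/-- THE ROTATION LEMMA. -/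
theorem rot {V : Type*} [AddCommGroup V] [Module ℂ V] {m : ℕ}
    (c : MultilinearMap ℂ (fun _ : Fin m => (V →ₗ[ℝ] ℂ)) ℂ)
    (a : Fin m → (V →ₗ[ℝ] ℂ)) (P : Fin m → Prop) [DecidablePred P]
    (R : ℂ → (V →ₗ[ℝ] V)) (hR : ∀ u v, R u v = u • v)
    (h1 : ∀ i, P i → ∀ (u : ℂ) (v : V), a i (u • v) = u * a i v)
    (h2 : ∀ i, ¬ P i → ∀ (u : ℂ) (v : V), a i (u • v) = conj u * a i v)
    (hc : ∀ u : ℂ, ‖u‖ = 1 → c (fun i => (a i).comp (R u)) = c a) (hne : c a ≠ 0) :
    2 * (univ.filter P).card = m := by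
  have key : ∀ u : ℂ, ‖u‖ = 1 →
      u ^ (univ.filter P).card * conj u ^ (univ.filter (fun i => ¬ P i)).card = 1 := by
    intro u hu
    have e1 : (fun i => (a i).comp (R u)) = fun i => (if P i then u else conj u) • a i := by
      funext i
      ext v
      rw [LinearMap.comp_apply, hR, LinearMap.smul_apply, smul_eq_mul]
      split_ifs with hi
      · exact h1 i hi u v
      · exact h2 i hi u v
    have e2 := hc u hu
    rw [e1, MultilinearMap.map_smul_univ, smul_eq_mul] at e2
    have e3 : (∏ i, if P i then u else conj u) =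
        u ^ (univ.filter P).card * conj u ^ (univ.filter (fun i => ¬ P i)).card := by
      rw [Finset.prod_ite, Finset.prod_const, Finset.prod_const]
    rw [e3] at e2
    exact mul_right_cancel₀ hne (by rw [e2, one_mul])
  have h3 := pow_eq key
  have h4 := Finset.card_filter_add_card_filter_not (s := (univ : Finset (Fin m))) P
  rw [Finset.card_univ, Fintype.card_fin] at h4
  omega

end

end E
end HC
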