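import Pool.Agent.Lib.HC.Defs
import Pool.Agent.Lib.HC.E.Gal
import Pool.Agent.Lib.HC.E.Rot

/-!
# PROJECT HC, part E: a Hodge class is supported on the balanced families

`T` an abelian variety, `K` a number field, `ζ j τ : T.V → ℂ` real linear, `ζ j τ l = τ (y l j)` on
the lattice, `ζ j τ` complex linear for `τ ∈ f j` and antilinear otherwise.  If `c` is a Hodge
class and `c (ζ (j i) (p₀ ∘ g i)) ≠ 0`, then for every embedding `p` exactly half of the
`ζ (j i) (p ∘ g i)` are complex linear.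
-/

namespace HC
namespace E

open Finset ComplexConjugate

/-- Coordinates on `T` with values in `K`: `ζ j τ l = τ (y l j)` on the lattice; `ζ j τ` is complex
linear for `τ ∈ f j`, antilinear otherwise. -/
structure KCo (T : AV) (K : Type*) [Field K] (J : Type*) (f : J → Set (K →+* ℂ))
    (y : T.V → J → K) (ζ : J → (K →+* ℂ) → (T.V →ₗ[ℝ] ℂ)) : Prop where
  lat : ∀ l ∈ T.L, ∀ j τ, ζ j τ l = τ (y l j)
  lin : ∀ j, ∀ τ ∈ f j, ∀ (u : ℂ) (v : T.V), ζ j τ (u • v) = u * ζ j τ v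
  anti : ∀ j, ∀ τ ∉ f j, ∀ (u : ℂ) (v : T.V), ζ j τ (u • v) = conj u * ζ j τ v

variable {T : AV} {K : Type*} [Field K] [NumberField K] {J : Type*} {f : J → Set (K →+* ℂ)}
  {y : T.V → J → K} {ζ : J → (K →+* ℂ) → (T.V →ₗ[ℝ] ℂ)}

/-- The Galois lemma for a Hodge class. -/
theorem hodge_val (h : KCo T K J f y ζ) {m : ℕ} {c : Hlg T m} (hc : IsHodge T m c)
    (j : Fin m → J) (g : Fin m → (K →+* K)) :
    ∃ x : K, ∀ p : K →+* ℂ, c (fun i => ζ (j i) (p.comp (g i))) = p x :=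
  E.exists_val (T.L : Set T.V) y ζ h.lat c.toMultilinearMap hc.1 j g

omit [NumberField K] in
/-- The rotation lemma for a Hodge class. -/
theorem hodge_rot (h : KCo T K J f y ζ) {m : ℕ} {c : Hlg T m} (hc : IsHodge T m c)
    (j : Fin m → J) (τ : Fin m → (K →+* ℂ)) [DecidablePred fun i => τ i ∈ f (j i)]
    (hne : c (fun i => ζ (j i) (τ i)) ≠ 0) :
    2 * (univ.filter (fun i => τ i ∈ f (j i))).card = m := by
  refine E.rot c.toMultilinearMap (fun i => ζ (j i) (τ i)) (fun i => τ i ∈ f (j i))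
    (fun u => ((u • LinearMap.id : T.V →ₗ[ℂ] T.V).restrictScalars ℝ)) (fun u v => rfl)
    (fun i hi => h.lin (j i) (τ i) hi) (fun i hi => h.anti (j i) (τ i) hi) ?_ hne
  intro u hu
  have := congrArg (fun d : Hlg T m => d (fun i => ζ (j i) (τ i))) (hc.2 u hu)
  exact this

/-- THE MAIN THEOREM OF PART E. -/
theorem hodge_balanced (h : KCo T K J f y ζ) {m : ℕ} {c : Hlg T m} (hc : IsHodge T m c)
    (j : Fin m → J) (g : Fin m → (K →+* K)) (p₀ : K →+* ℂ)
    (hne : c (fun i => ζ (j i) (p₀.comp (g i))) ≠ 0) (p : K →+* ℂ)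
    [DecidablePred fun i => p.comp (g i) ∈ f (j i)] :
    2 * (univ.filter (fun i => p.comp (g i) ∈ f (j i))).card = m := by
  obtain ⟨x, hx⟩ := hodge_val h hc j g
  have hx0 : x ≠ 0 := by
    rintro rfl
    rw [hx, map_zero] at hne
    exact hne rfl
  refine hodge_rot h hc j (fun i => p.comp (g i)) ?_
  rw [hx]
  exact (map_ne_zero p).mpr hx0

/-- The same for embeddings of the form `τ i = p₀ ∘ g i` and an automorphism `s` of `K`:
`p = p₀ ∘ s`. -/
theorem hodge_balanced_aut (h : KCo T K J f y ζ) {m : ℕ} {c : Hlg T m} (hc : IsHodge T m c)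
    (j : Fin m → J) (g : Fin m → (K →+* K)) (p₀ : K →+* ℂ)
    (hne : c (fun i => ζ (j i) (p₀.comp (g i))) ≠ 0) (s : K →+* K)
    [DecidablePred fun i => p₀.comp (s.comp (g i)) ∈ f (j i)] :
    2 * (univ.filter (fun i => p₀.comp (s.comp (g i)) ∈ f (j i))).card = m :=
  hodge_balanced h hc j g p₀ hne (p₀.comp s)

end E
end HC
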