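import Pool.Agent.Lib.HC.Iface
import Pool.Agent.Lib.HC.E.Main

/-!
# PROJECT HC, part E: the interface statement `S_E` (helper38)
-/

set_option autoImplicit false

open Finset
open scoped ComplexConjugate

noncomputable section

namespace HC
namespace E

variable {X : CMF} {ι : Type} {f : ι → Ty X} {T : AV}

/-- All embeddings are `τ ∘ g`. -/
theorem exists_gal (X : CMF) (p : X.K →+* ℂ) :
    ∃ g : X.G, p = X.τ.comp (g : X.K →+* X.K) := by
  let _ : Algebra X.K ℂ := X.τ.toAlgebra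
  have h1 : IsScalarTower ℚ X.K ℂ := IsScalarTower.of_algebraMap_eq fun x => by
    rw [eq_ratCast (algebraMap ℚ X.K), map_ratCast (algebraMap X.K ℂ), eq_ratCast]
  let q : X.K →ₐ[ℚ] ℂ := RingHom.toRatAlgHom p
  let g := (q.restrictNormal' X.K)
  refine ⟨g, ?_⟩
  ext x
  have := q.restrictNormal_commutes X.K x
  exact this.symm

/-- The functions `z` on the lattice. -/
theorem z_lat (C : Crd f T) (v : T.V) (y : ι → X.K)
    (hy : ∀ (i : ι) (g : (f i).S), C.ψ v ⟨i, g⟩ = X.τ (g.1 (y i))) (i : ι) (g : X.G) :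
    C.z (i, g) v = X.τ (g (y i)) := by
  unfold Crd.z
  split_ifs with h
  · exact hy i ⟨g, h⟩
  · rw [cjl_apply, Crd.cd_apply, hy]
    change conj (X.τ (X.c (g (y i)))) = _
    rw [X.hc, Complex.conj_conj]

theorem z_lin (C : Crd f T) {i : ι} {g : X.G} (hg : g ∈ (f i).S) (u : ℂ) (v : T.V) :
    C.z (i, g) (u • v) = u * C.z (i, g) v := by
  unfold Crd.z
  rw [dif_pos hg]
  change C.ψ (u • v) ⟨i, _⟩ = u * C.ψ v ⟨i, _⟩
  rw [map_smul]
  rfl

theorem z_anti (C : Crd f T) {i : ι} {g : X.G} (hg : g ∉ (f i).S) (u : ℂ) (v : T.V) :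
    C.z (i, g) (u • v) = conj u * C.z (i, g) v := by
  unfold Crd.z
  rw [dif_neg hg]
  change conj (C.ψ (u • v) ⟨i, _⟩) = conj u * conj (C.ψ v ⟨i, _⟩)
  rw [map_smul, ← map_mul]
  rfl

/-- PART E: a Hodge class is supported on the balanced families. -/
theorem tE : S_E := by
  classical
  intro X ι _ f T C m c hc s hne h
  choose γ hγ using exists_gal X
  have hγ' : ∀ g : X.G, γ (X.τ.comp (g : X.K →+* X.K)) = g := by
    intro g
    ext x
    apply X.τ.injective
    have := hγ (X.τ.comp (g : X.K →+* X.K))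
    exact (DFunLike.congr_fun this x).symm
  choose! Y hY using fun v (hv : v ∈ T.L) => (C.lat v).1 hv
  have hK : KCo T X.K ι (fun i => {p | γ p ∈ (f i).S}) Y (fun i p => C.z (i, γ p)) := by
    refine ⟨fun l hl j p => ?_, fun j p hp u v => z_lin C hp u v,
      fun j p hp u v => z_anti C hp u v⟩
    rw [z_lat C l (Y l) (hY l hl).2]
    exact (DFunLike.congr_fun (hγ p) (Y l j)).symm
  have hne' : c (fun i => C.z ((s i).1, γ (X.τ.comp (((s i).2 : X.G) : X.K →+* X.K)))) ≠ 0 := by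
    simp only [hγ']
    exact hne
  have key := hodge_balanced_aut hK hc (fun i => (s i).1)
    (fun i => (((s i).2 : X.G) : X.K →+* X.K)) X.τ hne' ((h : X.G) : X.K →+* X.K)
  rw [Finset.card_filter] at key
  refine Eq.trans ?_ key
  congr 1
  refine Finset.sum_congr rfl fun j _ => ?_
  unfold Ty.ind
  have e : γ (X.τ.comp (((h : X.G) : X.K →+* X.K).comp (((s j).2 : X.G) : X.K →+* X.K)))
      = h * (s j).2 := hγ' (h * (s j).2)
  have e2 : h ∈ ((f (s j).1).div (s j).2).S ↔ X.τ.comp (((h : X.G) : X.K →+* X.K).comp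
      (((s j).2 : X.G) : X.K →+* X.K)) ∈ {p | γ p ∈ (f (s j).1).S} := by
    rw [Set.mem_ofPred_eq, e]
    rfl
  exact if_congr e2 rfl rfl

end E
end HC
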